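import Pool.Agent.Lib.TG_h3.Spec

/-!
# TANK G, descent: finite generation and transcendence degree after a base change
-/

set_option autoImplicit false

namespace Pool.Agent.TGD

open scoped TensorProduct
open Module

universe u

section BC

variable {k k' K K' : Type u} [Field k] [Field k'] [Field K] [Algebra k k'] [Algebra k K]
  [Field K'] [Algebra (k' ⊗[k] K) K'] [IsFractionRing (k' ⊗[k] K) K'] [Algebra k' K']
  [IsScalarTower k' (k' ⊗[k] K) K']

omit [IsFractionRing (k' ⊗[k] K) K'] in
theorem map_tmul_one (c : k') :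
    algebraMap (k' ⊗[k] K) K' (c ⊗ₜ[k] (1 : K)) = algebraMap k' K' c := by
  rw [IsScalarTower.algebraMap_apply k' (k' ⊗[k] K) K']
  rfl

omit [IsFractionRing (k' ⊗[k] K) K'] in
theorem jk_eq (c : k') : jk k k' K K' c = algebraMap k' K' c := map_tmul_one c

omit [IsFractionRing (k' ⊗[k] K) K'] [Algebra k' K'] [IsScalarTower k' (k' ⊗[k] K) K'] in
theorem jK_eq (x : K) : jK k k' K K' x = algebraMap (k' ⊗[k] K) K' ((1 : k') ⊗ₜ[k] x) := rfl

omit [IsFractionRing (k' ⊗[k] K) K'] in
theorem jK_algebraMap (c : k) :
    jK k k' K K' (algebraMap k K c) = algebraMap k' K' (algebraMap k k' c) := by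
  have h := map_tmul_one (k := k) (k' := k') (K := K) (K' := K') (algebraMap k k' c)
  rw [← h, jK_eq]
  refine congrArg (algebraMap (k' ⊗[k] K) K') ?_
  rw [Algebra.algebraMap_eq_smul_one, Algebra.algebraMap_eq_smul_one, TensorProduct.tmul_smul,
    TensorProduct.smul_tmul']

omit [IsFractionRing (k' ⊗[k] K) K'] in
theorem map_tmul (c : k') (x : K) :
    algebraMap (k' ⊗[k] K) K' (c ⊗ₜ[k] x) = algebraMap k' K' c * jK k k' K K' x := by
  have h := map_tmul_one (k := k) (k' := k') (K := K) (K' := K') c
  rw [← h, jK_eq, ← map_mul, Algebra.TensorProduct.tmul_mul_tmul, mul_one, one_mul]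

/-- A subfield of `K'` which contains `k'` and the image of `K` is `K'`. -/
theorem mem_of_subfield [IsAlgClosed k] (M : Subfield K') (h1 : ∀ c : k', algebraMap k' K' c ∈ M)
    (h2 : ∀ x : K, jK k k' K K' x ∈ M) (z : K') : z ∈ M := by
  have hdom : IsDomain (k' ⊗[k] K) := isDomain_tensor
  have h3 : ∀ t : k' ⊗[k] K, algebraMap (k' ⊗[k] K) K' t ∈ M := by
    intro t
    induction t with
    | zero => rw [map_zero]; exact M.zero_mem
    | add x y hx hy => rw [map_add]; exact M.add_mem hx hy
    | tmul c x => rw [map_tmul]; exact M.mul_mem (h1 c) (h2 x)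
  obtain ⟨p, q, -, rfl⟩ := IsFractionRing.div_surjective (A := k' ⊗[k] K) z
  exact M.div_mem (h3 p) (h3 q)

omit [IsFractionRing (k' ⊗[k] K) K'] in
/-- The image of an intermediate field. -/
theorem jK_mem_of_adjoin (S : Set K) (M : IntermediateField k' K')
    (hS : ∀ s ∈ S, jK k k' K K' s ∈ M) {x : K} (hx : x ∈ IntermediateField.adjoin k S) :
    jK k k' K K' x ∈ M := by
  induction hx using IntermediateField.adjoin_induction with
  | mem x hx => exact hS x hx
  | algebraMap c => rw [jK_algebraMap]; exact M.algebraMap_mem _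
  | add x y _ _ hx hy => rw [map_add]; exact M.add_mem hx hy
  | inv x _ hx => rw [map_inv₀]; exact M.inv_mem hx
  | mul x y _ _ hx hy => rw [map_mul]; exact M.mul_mem hx hy

/-- D1 (a). -/
theorem top_fg_baseChange [IsAlgClosed k] (h : (⊤ : IntermediateField k K).FG) :
    (⊤ : IntermediateField k' K').FG := by
  classical
  obtain ⟨S, hS⟩ := h
  refine ⟨S.image (jK k k' K K'), ?_⟩
  rw [eq_top_iff]
  intro z _
  refine mem_of_subfield (k := k) (K := K)
    (IntermediateField.adjoin k' ((S.image (jK k k' K K') : Finset K') : Set K')).toSubfield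
    (fun c => IntermediateField.algebraMap_mem _ c) (fun x => ?_) z
  refine jK_mem_of_adjoin (S : Set K) _ (fun s hs => ?_) (x := x) (by rw [hS]; trivial)
  exact IntermediateField.subset_adjoin _ _ (by
    rw [Finset.coe_image]
    exact ⟨s, hs, rfl⟩)

/-- The image of an algebraically independent family. -/
theorem algebraicIndependent_baseChange [IsAlgClosed k] {ι : Type u} {x : ι → K}
    (hx : AlgebraicIndependent k x) :
    AlgebraicIndependent k' (fun i => jK k k' K K' (x i)) := by
  have hdom : IsDomain (k' ⊗[k] K) := isDomain_tensor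
  have hinj : Function.Injective (algebraMap (k' ⊗[k] K) K') := IsFractionRing.injective _ _
  -- the map `k' ⊗ k[X] → k' ⊗ K`
  have h1 : Function.Injective (LinearMap.lTensor k' (MvPolynomial.aeval x :
      MvPolynomial ι k →ₐ[k] K).toLinearMap) :=
    Module.Flat.lTensor_preserves_injective_linearMap _ hx
  have h2 : ∀ P : MvPolynomial ι k', MvPolynomial.aeval (fun i => jK k k' K K' (x i)) P =
      algebraMap (k' ⊗[k] K) K' (LinearMap.lTensor k' (MvPolynomial.aeval x :
        MvPolynomial ι k →ₐ[k] K).toLinearMap ((MvPolynomial.algebraTensorAlgEquiv k k').symm P)) := by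
    intro P
    induction P using MvPolynomial.induction_on' with
    | monomial m c =>
      rw [MvPolynomial.algebraTensorAlgEquiv_symm_monomial, LinearMap.lTensor_tmul, map_tmul,
        MvPolynomial.aeval_monomial]
      congr 1
      change _ = jK k k' K K' (MvPolynomial.aeval x (MvPolynomial.monomial m (1 : k)))
      rw [MvPolynomial.aeval_monomial, map_one, one_mul, Finsupp.prod, Finsupp.prod, map_prod]
      simp only [map_pow]
    | add P Q hP hQ => rw [map_add, hP, hQ, map_add, map_add, map_add]
  intro P Q hPQ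
  rw [h2, h2] at hPQ
  exact (MvPolynomial.algebraTensorAlgEquiv k k').symm.injective (h1 (hinj hPQ))

/-- The image of a transcendence basis. -/
theorem isTranscendenceBasis_baseChange [IsAlgClosed k] {ι : Type u} {x : ι → K}
    (hx : IsTranscendenceBasis k x) :
    IsTranscendenceBasis k' (fun i => jK k k' K K' (x i)) := by
  have hind := algebraicIndependent_baseChange (k' := k') (K' := K') hx.1
  rw [hind.isTranscendenceBasis_iff_isAlgebraic]
  set E := IntermediateField.adjoin k' (Set.range fun i => jK k k' K K' (x i)) with hE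
  have hE1 : ∀ z : K', IsAlgebraic E z := by
    intro z
    rw [← mem_algebraicClosure_iff]
    refine mem_of_subfield (k := k) (k' := k') (K := K) (algebraicClosure E K').toSubfield
      (fun c => ?_) (fun y => ?_) z
    · change algebraMap k' K' c ∈ algebraicClosure E K'
      exact (mem_algebraicClosure_iff).2 (isAlgebraic_algebraMap
        (⟨algebraMap k' K' c, E.algebraMap_mem c⟩ : E))
    · change jK k k' K K' y ∈ algebraicClosure E K'
      rw [mem_algebraicClosure_iff]
      have h1 : IsAlgebraic (Algebra.adjoin k (Set.range x)) y := hx.isAlgebraic.1 y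
      have hmem : ∀ a ∈ Algebra.adjoin k (Set.range x), jK k k' K K' a ∈ E := by
        intro a ha
        have h2 : a ∈ IntermediateField.adjoin k (Set.range x) :=
          IntermediateField.algebra_adjoin_le_adjoin k _ ha
        refine jK_mem_of_adjoin (k' := k') (K' := K') (Set.range x) E ?_ h2
        rintro _ ⟨i, rfl⟩
        exact IntermediateField.subset_adjoin _ _ ⟨i, rfl⟩
      let f : Algebra.adjoin k (Set.range x) →+* E :=
        { toFun := fun a => ⟨jK k k' K K' a, hmem a a.2⟩
          map_one' := Subtype.ext (by simp)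
          map_mul' := fun a b => Subtype.ext (by simp)
          map_zero' := Subtype.ext (by simp)
          map_add' := fun a b => Subtype.ext (by simp) }
      refine h1.ringHom_of_comp_eq f (jK k k' K K') ?_ ?_
      · intro a b hab
        have h3 : jK k k' K K' a = jK k k' K K' b := congrArg Subtype.val hab
        exact Subtype.ext ((jK k k' K K').injective h3)
      · ext a
        rfl
  refine ⟨fun z => ?_⟩
  exact IntermediateField.isAlgebraic_adjoin_iff.1 (hE1 z)

/-- D1 (b). -/
theorem trdeg_baseChange (k K k' K' : Type u) [Field k] [Field k'] [Field K]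
    [Algebra k k'] [Algebra k K] [Field K'] [Algebra (k' ⊗[k] K) K']
    [IsFractionRing (k' ⊗[k] K) K'] [Algebra k' K'] [IsScalarTower k' (k' ⊗[k] K) K']
    [IsAlgClosed k] : Algebra.trdeg k' K' = Algebra.trdeg k K := by
  obtain ⟨ι, x, hx⟩ := exists_isTranscendenceBasis' k K
  rw [← hx.cardinalMk_eq_trdeg,
    ← (isTranscendenceBasis_baseChange (k' := k') (K' := K') hx).cardinalMk_eq_trdeg]

end BC

end Pool.Agent.TGD
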